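import Pool.Agent.W237.RK.LGal

/-!
# L4: structure of the finite extensions of the maximal unramified extension
-/

set_option autoImplicit false

namespace Pool.Agent.W571.RK.L4

open Pool.Agent.W237.RK Polynomial IntermediateField

variable {p : ℕ} [Fact p.Prime]

lemma norm_sub_le_max' (x y : Om p) : ‖x - y‖ ≤ max ‖x‖ ‖y‖ := by
  have h := IsUltrametricDist.norm_add_le_max x (-y)
  rwa [norm_neg, ← sub_eq_add_neg] at h

lemma norm_root_unity {c : Om p} {M : ℕ} (hM : ¬ p ∣ M) (h : c ^ M = 1) : ‖c‖ = 1 := by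
  have hM0 : M ≠ 0 := fun h0 => hM (h0 ▸ dvd_zero p)
  have h1 : ‖c‖ ^ M = 1 := by rw [← norm_pow, h, norm_one]
  exact (pow_eq_one_iff_of_nonneg (norm_nonneg _) hM0).1 h1

lemma Unif.mem_exp {L : LF p} {π : Om p} (hπ : Unif L π) {x : Om p} (hx : x ∈ L) (h0 : x ≠ 0)
    (h1 : ‖x‖ < 1) : ∃ n : ℕ, 0 < n ∧ ‖x‖ = ‖π‖ ^ n := by
  obtain ⟨-, hπ0, hπ1, h⟩ := hπ
  obtain ⟨z, hz⟩ := h x hx h0
  have hpos : 0 < ‖π‖ := norm_pos_iff.2 hπ0
  have hz0 : 0 < z := by
    by_contra hcon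
    push Not at hcon
    rw [hz] at h1
    have h2 : (1 : ℝ) ≤ ‖π‖ ^ z := by
      obtain ⟨n, rfl⟩ : ∃ n : ℕ, z = -(n : ℤ) := ⟨z.natAbs, by omega⟩
      rw [zpow_neg, zpow_natCast]
      exact (one_le_inv₀ (pow_pos hpos n)).2 (pow_le_one₀ hpos.le hπ1.le)
    exact absurd h1 (not_lt.2 h2)
  lift z to ℕ using hz0.le
  exact ⟨z, by exact_mod_cast hz0, by rw [hz, zpow_natCast]⟩

/-- one digit -/
lemma digit (hres : S_RES) {L : LF p} (hL : kur p ≤ L) {π : Om p} (hπ : Unif L π) (x : Om p)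
    (hx : x ∈ L) (hx1 : ‖x‖ ≤ 1) :
    ∃ c ∈ kur p, ‖c‖ ≤ 1 ∧ ∃ y ∈ L, ‖y‖ ≤ 1 ∧ x = c + π * y := by
  have hπ0 := hπ.2.1
  have hpos : 0 < ‖π‖ := norm_pos_iff.2 hπ0
  obtain ⟨c, hc, hxc⟩ := hres p x hx1
  have hck : c ∈ kur p ∧ ‖c‖ ≤ 1 := by
    rcases hc with rfl | ⟨M, hM, hc⟩
    · exact ⟨zero_mem _, by simp⟩
    · exact ⟨root_mem_kur hM hc, (norm_root_unity hM hc).le⟩
  refine ⟨c, hck.1, hck.2, (x - c) / π, div_mem (sub_mem hx (hL hck.1)) hπ.1, ?_, ?_⟩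
  · by_cases h0 : x - c = 0
    · rw [h0, zero_div, norm_zero]; exact zero_le_one
    · obtain ⟨n, hn, hxn⟩ := Unif.mem_exp hπ (sub_mem hx (hL hck.1)) h0 hxc
      rw [norm_div, hxn, div_le_one hpos]
      calc ‖π‖ ^ n ≤ ‖π‖ ^ 1 := pow_le_pow_of_le_one hpos.le hπ.2.2.1.le hn
        _ = ‖π‖ := pow_one _
  · field_simp
    ring

/-- `f` digits -/
lemma digits (hres : S_RES) {L : LF p} (hL : kur p ≤ L) {π : Om p} (hπ : Unif L π) (x : Om p)
    (hx : x ∈ L) (hx1 : ‖x‖ ≤ 1) (f : ℕ) :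
    ∃ c : ℕ → Om p, (∀ j, c j ∈ kur p ∧ ‖c j‖ ≤ 1) ∧ ∃ y ∈ L, ‖y‖ ≤ 1 ∧
      x = ∑ j ∈ Finset.range f, c j * π ^ j + π ^ f * y := by
  induction f with
  | zero =>
    refine ⟨fun _ => 0, fun _ => ⟨zero_mem _, by simp⟩, x, hx, hx1, by simp⟩
  | succ f ih =>
    obtain ⟨c, hc, y, hy, hy1, he⟩ := ih
    obtain ⟨d, hd, hd1, z, hz, hz1, hyz⟩ := digit hres hL hπ y hy hy1
    refine ⟨fun j => if j = f then d else c j, fun j => ?_, z, hz, hz1, ?_⟩
    · by_cases h : j = f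
      · simp only [if_pos h]; exact ⟨hd, hd1⟩
      · simp only [if_neg h]; exact hc j
    · rw [Finset.sum_range_succ]
      simp only [if_true]
      have hs : ∑ j ∈ Finset.range f, (if j = f then d else c j) * π ^ j =
          ∑ j ∈ Finset.range f, c j * π ^ j := by
        refine Finset.sum_congr rfl fun j hj => ?_
        rw [if_neg (Finset.mem_range.1 hj).ne]
      rw [hs, he, hyz]
      ring

/-- digits relative to a smaller field -/
lemma digits_r (hres : S_RES) {F L : LF p} (hF : kur p ≤ F) (hFL : F ≤ L) {ϖ π : Om p}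
    (hϖF : ϖ ∈ F) (hϖ0 : ϖ ≠ 0) (hϖ1 : ‖ϖ‖ ≤ 1) (hπ : Unif L π) (f : ℕ) (hf : ‖π‖ ^ f = ‖ϖ‖)
    (x : Om p) (hx : x ∈ L) (hx1 : ‖x‖ ≤ 1) (r : ℕ) :
    ∃ c : ℕ → Om p, (∀ j, c j ∈ F ∧ ‖c j‖ ≤ 1) ∧ ∃ y ∈ L, ‖y‖ ≤ 1 ∧
      x = ∑ j ∈ Finset.range f, c j * π ^ j + ϖ ^ r * y := by
  induction r with
  | zero =>
    refine ⟨fun _ => 0, fun _ => ⟨zero_mem _, by simp⟩, x, hx, hx1, by simp⟩
  | succ r ih =>
    obtain ⟨c, hc, y, hy, hy1, he⟩ := ih
    obtain ⟨d, hd, z, hz, hz1, hyz⟩ := digits hres (hF.trans hFL) hπ y hy hy1 f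
    refine ⟨fun j => c j + ϖ ^ r * d j, fun j => ⟨?_, ?_⟩, π ^ f / ϖ * z, ?_, ?_, ?_⟩
    · exact add_mem (hc j).1 (mul_mem (pow_mem hϖF r) (hF (hd j).1))
    · refine (IsUltrametricDist.norm_add_le_max _ _).trans (max_le (hc j).2 ?_)
      rw [norm_mul, norm_pow]
      exact mul_le_one₀ (pow_le_one₀ (norm_nonneg _) hϖ1) (norm_nonneg _) (hd j).2
    · exact mul_mem (div_mem (pow_mem hπ.1 f) (hFL hϖF)) hz
    · rw [norm_mul, norm_div, norm_pow, hf, div_self (norm_ne_zero_iff.2 hϖ0), one_mul]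
      exact hz1
    · have hs : ∑ j ∈ Finset.range f, (c j + ϖ ^ r * d j) * π ^ j =
          ∑ j ∈ Finset.range f, c j * π ^ j + ϖ ^ r * ∑ j ∈ Finset.range f, d j * π ^ j := by
        rw [Finset.mul_sum, ← Finset.sum_add_distrib]
        refine Finset.sum_congr rfl fun j _ => ?_
        ring
      rw [hs, he, hyz]
      field_simp
      ring

/-- the norm depends only on the minimal polynomial -/
lemma norm_algHom {F : LF p} (E : IntermediateField F (Om p)) (σ : E →ₐ[F] Om p) (x : E) :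
    ‖σ x‖ = ‖(x : Om p)‖ := by
  have h1 : minpoly ℚ_[p] (σ x) = minpoly ℚ_[p] x := by
    exact minpoly.algHom_eq (σ.restrictScalars ℚ_[p]) σ.injective x
  have h2 : minpoly ℚ_[p] (x : Om p) = minpoly ℚ_[p] x := by
    exact minpoly.algHom_eq (E.val.restrictScalars ℚ_[p]) E.val.injective x
  show spectralValue (minpoly ℚ_[p] (σ x)) = spectralValue (minpoly ℚ_[p] (x : Om p))
  rw [h1, h2]

/-- linear functionals on finite extensions are bounded -/
lemma functional_bound {F : LF p} (E : IntermediateField F (Om p)) [FiniteDimensional F E]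
    (lam : E →ₗ[F] F) : ∃ C : ℝ, 0 ≤ C ∧ ∀ x : E, ‖((lam x : F) : Om p)‖ ≤ C * ‖(x : Om p)‖ := by
  have : CharZero F := inferInstance
  have : Algebra.IsSeparable F E := inferInstance
  have hB := traceForm_nondegenerate F E
  let y : E := ((Algebra.traceForm F E).toDual hB).symm lam
  refine ⟨‖(y : Om p)‖, norm_nonneg _, fun x => ?_⟩
  have h1 : lam x = Algebra.trace F E (y * x) := by
    have h2 : (Algebra.traceForm F E).toDual hB y = lam := LinearEquiv.apply_symm_apply _ _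
    rw [← h2, LinearMap.BilinForm.toDual_def, Algebra.traceForm_apply]
  have h3 : ((lam x : F) : Om p) = ∑ σ : E →ₐ[F] Om p, σ (y * x) := by
    rw [h1]
    exact trace_eq_sum_embeddings (K := F) (L := E) (Om p)
  rw [h3]
  refine IsUltrametricDist.norm_sum_le_of_forall_le_of_nonneg (by positivity) fun σ _ => ?_
  rw [norm_algHom, ← norm_mul]
  rfl

/-- existence of the exponent -/
lemma exists_exp {F L : LF p} (hFL : F ≤ L) {ϖ π : Om p} (hϖ : Unif F ϖ) (hπ : Unif L π) :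
    ∃ f : ℕ, 0 < f ∧ ‖π‖ ^ f = ‖ϖ‖ := by
  obtain ⟨f, hf, h⟩ := Unif.mem_exp hπ (hFL hϖ.1) hϖ.2.1 hϖ.2.2.1
  exact ⟨f, hf, h.symm⟩

/-- the powers of the uniformiser span -/
theorem span_powers (hres : S_RES) {F L : LF p} (hF : kur p ≤ F) (hFL : F ≤ L)
    [FiniteDimensional F (extendScalars hFL)] {ϖ π : Om p} (hϖ : Unif F ϖ) (hπ : Unif L π) (f : ℕ)
    (hf : ‖π‖ ^ f = ‖ϖ‖) :
    Submodule.span F (Set.range fun j : Fin f => (⟨π, hπ.1⟩ : extendScalars hFL) ^ (j : ℕ)) = ⊤ := by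
  by_contra hne
  set W : Submodule F (extendScalars hFL) :=
    Submodule.span F (Set.range fun j : Fin f => (⟨π, hπ.1⟩ : extendScalars hFL) ^ (j : ℕ)) with hW
  obtain ⟨lam, hlam, hker⟩ := Submodule.exists_le_ker_of_lt_top W (lt_top_iff_ne_top.2 hne)
  apply hlam
  obtain ⟨C, hC0, hC⟩ := functional_bound (extendScalars hFL) lam
  have hpos : 0 < ‖ϖ‖ := norm_pos_iff.2 hϖ.2.1
  have hlt : ‖ϖ‖ < 1 := hϖ.2.2.1
  -- integral elements
  have key : ∀ x : extendScalars hFL, ‖(x : Om p)‖ ≤ 1 → lam x = 0 := by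
    intro x hx
    have hb : ∀ r : ℕ, ‖((lam x : F) : Om p)‖ ≤ ‖ϖ‖ ^ r * C := by
      intro r
      obtain ⟨c, hc, y, hy, hy1, he⟩ := digits_r hres hF hFL hϖ.1 hϖ.2.1 hlt.le hπ f hf x x.2 hx r
      have hxw : x = (∑ j : Fin f, (⟨c j, (hc j).1⟩ : F) •
          (⟨π, hπ.1⟩ : extendScalars hFL) ^ (j : ℕ)) + (⟨ϖ, hϖ.1⟩ : F) ^ r •
          (⟨y, hy⟩ : extendScalars hFL) := by
        apply Subtype.ext
        rw [he, ← Fin.sum_univ_eq_sum_range (fun j => c j * π ^ j)]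
        push_cast
        rfl
      have hw : lam (∑ j : Fin f, (⟨c j, (hc j).1⟩ : F) •
          (⟨π, hπ.1⟩ : extendScalars hFL) ^ (j : ℕ)) = 0 := by
        refine hker (Submodule.sum_mem _ fun j _ => Submodule.smul_mem _ _ ?_)
        exact Submodule.subset_span ⟨j, rfl⟩
      have h1 : lam x = (⟨ϖ, hϖ.1⟩ : F) ^ r * lam ⟨y, hy⟩ := by
        conv_lhs => rw [hxw]
        rw [map_add, hw, zero_add, map_smul, smul_eq_mul]
      rw [h1]
      have h2 : (((⟨ϖ, hϖ.1⟩ : F) ^ r * lam ⟨y, hy⟩ : F) : Om p) =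
          ϖ ^ r * ((lam ⟨y, hy⟩ : F) : Om p) := by
        push_cast
        rfl
      rw [h2, norm_mul, norm_pow]
      refine mul_le_mul_of_nonneg_left ((hC _).trans ?_) (by positivity)
      calc C * ‖((⟨y, hy⟩ : extendScalars hFL) : Om p)‖ ≤ C * 1 :=
            mul_le_mul_of_nonneg_left hy1 hC0
        _ = C := mul_one C
    have hlim : Filter.Tendsto (fun r : ℕ => ‖ϖ‖ ^ r * C) Filter.atTop (nhds 0) := by
      have := (tendsto_pow_atTop_nhds_zero_of_lt_one hpos.le hlt).mul_const C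
      rwa [zero_mul] at this
    have h0 : ‖((lam x : F) : Om p)‖ ≤ 0 := ge_of_tendsto' hlim hb
    have h1 : ((lam x : F) : Om p) = 0 := norm_le_zero_iff.1 h0
    exact_mod_cast h1
  ext x
  rw [LinearMap.zero_apply]
  obtain ⟨m, hm⟩ : ∃ m : ℕ, ‖ϖ‖ ^ m * ‖(x : Om p)‖ ≤ 1 := by
    have := (tendsto_pow_atTop_nhds_zero_of_lt_one hpos.le hlt).mul_const ‖(x : Om p)‖
    rw [zero_mul] at this
    obtain ⟨m, hm⟩ := (this.eventually (eventually_le_nhds one_pos)).exists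
    exact ⟨m, hm⟩
  have h1 := key ((⟨ϖ, hϖ.1⟩ : F) ^ m • x) (by
    have h2 : (((⟨ϖ, hϖ.1⟩ : F) ^ m • x : extendScalars hFL) : Om p) = ϖ ^ m * (x : Om p) := rfl
    rw [h2, norm_mul, norm_pow]
    exact hm)
  rw [map_smul, smul_eq_mul, mul_eq_zero] at h1
  rcases h1 with h1 | h1
  · exfalso
    have h2 : ((⟨ϖ, hϖ.1⟩ : F) : Om p) = 0 := by
      rw [eq_zero_of_pow_eq_zero h1]; rfl
    exact hϖ.2.1 h2
  · rw [h1]

/-- finiteness of the degree -/
lemma finiteDim {F L : LF p} (hFL : F ≤ L) (h : FinOver F L) :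
    FiniteDimensional F (extendScalars hFL) := by
  obtain ⟨s, hs⟩ := h
  have he : extendScalars hFL = adjoin F (s : Set (Om p)) := by
    apply restrictScalars_injective ℚ_[p]
    rw [extendScalars_restrictScalars, restrictScalars_adjoin_eq_sup, hs]
  rw [he]
  have := galg F
  exact finiteDimensional_adjoin fun x _ => (Algebra.IsAlgebraic.isAlgebraic x).isIntegral

lemma finOver_of_finiteDim {F L : LF p} (hFL : F ≤ L)
    (h : FiniteDimensional F (extendScalars hFL)) : FinOver F L := by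
  have h1 : (extendScalars hFL).FG := by
    apply fg_of_fg_toSubalgebra
    apply Subalgebra.fg_of_fg_toSubmodule
    exact Module.Finite.iff_fg.1 h
  obtain ⟨t, ht⟩ := h1
  refine ⟨t, ?_⟩
  rw [← restrictScalars_adjoin_eq_sup, ht, extendScalars_restrictScalars]

lemma FinOver.top {F k L : LF p} (hFk : F ≤ k) (hkL : k ≤ L) (h : FinOver F L) : FinOver k L := by
  obtain ⟨s, hs⟩ := h
  refine ⟨s, le_antisymm ?_ ?_⟩
  · rw [hs]
    exact sup_le_sup_right hFk _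
  · refine sup_le hkL ?_
    rw [hs]
    exact le_sup_right

lemma FinOver.bot {F k L : LF p} (hFk : F ≤ k) (hkL : k ≤ L) (h : FinOver F L) : FinOver F k := by
  have h1 := finiteDim (hFk.trans hkL) h
  refine finOver_of_finiteDim hFk ?_
  have hle : extendScalars hFk ≤ extendScalars (hFk.trans hkL) := hkL
  exact FiniteDimensional.of_injective (IntermediateField.inclusion hle).toLinearMap
    (IntermediateField.inclusion hle).injective

/-- the norm of the constant coefficient of the minimal polynomial -/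
lemma norm_pow_orb (F : LF p) (x : Om p) (hx : x ≠ 0) :
    ∃ c ∈ F, c ≠ 0 ∧ ‖x‖ ^ (lorb F x).ncard = ‖c‖ := by
  have h1 := norm_aeval_minpoly F x 0
  have h2 : ∏ᶠ y ∈ lorb F x, ‖(0 : Om p) - y‖ = ‖x‖ ^ (lorb F x).ncard := by
    rw [finprod_mem_eq_finite_toFinset_prod _ (lorb_finite F x)]
    rw [Finset.prod_congr rfl (g := fun _ => ‖x‖)]
    · rw [Finset.prod_const, Set.ncard_eq_toFinset_card _ (lorb_finite F x)]
    · intro y hy
      rw [zero_sub, norm_neg]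
      exact norm_of_mem_lorb ((lorb_finite F x).mem_toFinset.1 hy)
  rw [h2] at h1
  refine ⟨aeval 0 (minpoly F x), ?_, ?_, h1.symm⟩
  · have h3 : aeval (0 : Om p) (minpoly F x) = algebraMap F (Om p) (eval 0 (minpoly F x)) := by
      rw [← map_zero (algebraMap F (Om p)), aeval_algebraMap_apply, coe_aeval_eq_eval]
    rw [h3]
    exact (eval 0 (minpoly F x)).2
  · rw [← norm_pos_iff, h1]
    exact pow_pos (norm_pos_iff.2 hx) _

/-- existence of a uniformiser -/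
theorem exists_unif {F L : LF p} (hFL : F ≤ L) (hfin : FiniteDimensional F (extendScalars hFL))
    {ϖ : Om p} (hϖ : Unif F ϖ) : ∃ π, Unif L π := by
  classical
  set n := Module.finrank F (extendScalars hFL) with hn
  have hpos : 0 < ‖ϖ‖ := norm_pos_iff.2 hϖ.2.1
  have hlt : ‖ϖ‖ < 1 := hϖ.2.2.1
  have hval : ∀ x ∈ L, x ≠ 0 → ∃ z : ℤ, ‖x‖ ^ n.factorial = ‖ϖ‖ ^ z := by
    intro x hx hx0
    obtain ⟨c, hc, hc0, he⟩ := norm_pow_orb F x hx0
    obtain ⟨z, hz⟩ := hϖ.2.2.2 c hc hc0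
    have hle : (lorb F x).ncard ≤ n := by
      rw [lorb_ncard]
      have := minpoly.natDegree_le (A := F) (⟨x, hx⟩ : extendScalars hFL)
      rwa [IntermediateField.minpoly_eq] at this
    obtain ⟨q, hq⟩ := Nat.dvd_factorial (lorb_ncard_pos F x) hle
    refine ⟨z * q, ?_⟩
    rw [hq, pow_mul, he, hz, zpow_mul, zpow_natCast]
  have hex : ∃ m : ℕ, 0 < m ∧ ∃ x ∈ L, x ≠ 0 ∧ ‖x‖ ^ n.factorial = ‖ϖ‖ ^ m :=
    ⟨n.factorial, n.factorial_pos, ϖ, hFL hϖ.1, hϖ.2.1, rfl⟩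
  obtain ⟨hm0, π, hπL, hπ0, hπm⟩ := Nat.find_spec hex
  set m := Nat.find hex with hm
  have hmin : ∀ m' : ℕ, 0 < m' → m' < m → ∀ x ∈ L, x ≠ 0 → ‖x‖ ^ n.factorial ≠ ‖ϖ‖ ^ m' := by
    intro m' h1 h2 x hx hx0 he
    exact Nat.find_min hex h2 ⟨h1, x, hx, hx0, he⟩
  have hπpos : 0 < ‖π‖ := norm_pos_iff.2 hπ0
  have hπ1 : ‖π‖ < 1 := by
    by_contra hcon
    push Not at hcon
    have h1 : (1 : ℝ) ≤ ‖π‖ ^ n.factorial := one_le_pow₀ hcon
    rw [hπm] at h1
    exact absurd (pow_lt_one₀ hpos.le hlt hm0.ne') (not_lt.2 h1)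
  refine ⟨π, hπL, hπ0, hπ1, fun x hx hx0 => ?_⟩
  obtain ⟨z, hz⟩ := hval x hx hx0
  refine ⟨z / m, ?_⟩
  have hm0' : (0 : ℤ) < m := by exact_mod_cast hm0
  have hy : ‖x * π ^ (-(z / m))‖ ^ n.factorial = ‖ϖ‖ ^ (z % m).toNat := by
    rw [norm_mul, mul_pow, hz, norm_zpow, ← zpow_natCast (‖π‖ ^ (-(z / (m : ℤ)))), ← zpow_mul,
      mul_comm (-(z / (m : ℤ))), zpow_mul, zpow_natCast, hπm, ← zpow_natCast, ← zpow_mul,
      ← zpow_add₀ hpos.ne', ← zpow_natCast]
    congr 1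
    rw [Int.toNat_of_nonneg (Int.emod_nonneg _ hm0'.ne')]
    have := Int.emod_add_mul_ediv z m
    linarith
  have hyL : x * π ^ (-(z / m)) ∈ L := mul_mem hx (zpow_mem hπL _)
  have hy0 : x * π ^ (-(z / m)) ≠ 0 := mul_ne_zero hx0 (zpow_ne_zero _ hπ0)
  have hr : (z % m).toNat = 0 := by
    by_contra hr
    refine hmin _ (Nat.pos_of_ne_zero hr) ?_ _ hyL hy0 hy
    have := Int.emod_lt_of_pos z hm0'
    omega
  rw [hr, pow_zero] at hy
  have h1 : ‖x * π ^ (-(z / m))‖ = 1 :=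
    (pow_eq_one_iff_of_nonneg (norm_nonneg _) n.factorial_pos.ne').1 hy
  rw [norm_mul, norm_zpow, zpow_neg] at h1
  have h2 : ‖π‖ ^ (z / (m : ℤ)) ≠ 0 := zpow_ne_zero _ hπpos.ne'
  field_simp at h1
  exact h1

/-- the degree of a uniformiser -/
theorem ncard_eq (hres : S_RES) {F L : LF p} (hF : kur p ≤ F) (hFL : F ≤ L) (hfin : FinOver F L)
    {ϖ π : Om p} (hϖ : Unif F ϖ) (hπ : Unif L π) : ‖π‖ ^ (lorb F π).ncard = ‖ϖ‖ := by
  have hfd := finiteDim hFL hfin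
  obtain ⟨f, hf0, hf⟩ := exists_exp hFL hϖ hπ
  have hsp := span_powers hres hF hFL hϖ hπ f hf
  have hπpos : 0 < ‖π‖ := norm_pos_iff.2 hπ.2.1
  have h1 : Module.finrank F (extendScalars hFL) ≤ f := by
    rw [← finrank_top, ← hsp]
    exact (finrank_range_le_card _).trans (by rw [Fintype.card_fin])
  have h2 : (lorb F π).ncard ≤ f := by
    rw [lorb_ncard]
    have := minpoly.natDegree_le (A := F) (⟨π, hπ.1⟩ : extendScalars hFL)
    rw [IntermediateField.minpoly_eq] at this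
    exact this.trans h1
  obtain ⟨c, hc, hc0, he⟩ := norm_pow_orb F π hπ.2.1
  have hpos := lorb_ncard_pos F π
  have hc1 : ‖c‖ < 1 := by
    rw [← he]
    exact pow_lt_one₀ hπpos.le hπ.2.2.1 hpos.ne'
  obtain ⟨a, ha, hca⟩ := Unif.mem_exp hϖ hc hc0 hc1
  have h3 : (lorb F π).ncard = f * a := by
    rw [hca, ← hf, ← pow_mul] at he
    exact pow_right_injective₀ hπpos hπ.2.2.1.ne he
  have h4 : (lorb F π).ncard = f := by
    have : f * 1 ≤ f * a := Nat.mul_le_mul_left f ha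
    omega
  rw [h4, hf]

/-- integrality of the coordinates -/
theorem coord_le (F : LF p) {ϖ π : Om p} (hϖ : Unif F ϖ) (hπ0 : π ≠ 0) (hπ1 : ‖π‖ < 1) (f : ℕ)
    (hf : ‖π‖ ^ f = ‖ϖ‖) (c : Fin f → Om p) (hc : ∀ j, c j ∈ F)
    (hx : ‖∑ j : Fin f, c j * π ^ (j : ℕ)‖ ≤ 1) (j : Fin f) : ‖c j‖ ≤ 1 := by
  classical
  have hpos : 0 < ‖π‖ := norm_pos_iff.2 hπ0
  have hval : ∀ i : Fin f, c i ≠ 0 → ∃ z : ℤ, ‖c i‖ = ‖π‖ ^ ((f : ℤ) * z) := by
    intro i hi
    obtain ⟨z, hz⟩ := hϖ.2.2.2 (c i) (hc i) hi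
    refine ⟨z, ?_⟩
    rw [hz, ← hf, zpow_mul, zpow_natCast]
  by_cases hj : c j = 0
  · rw [hj, norm_zero]; exact zero_le_one
  set s : Finset (Fin f) := Finset.univ.filter fun i => c i ≠ 0 with hs
  have hjs : j ∈ s := by rw [hs, Finset.mem_filter]; exact ⟨Finset.mem_univ _, hj⟩
  have hsum : ∑ i : Fin f, c i * π ^ (i : ℕ) = ∑ i ∈ s, c i * π ^ (i : ℕ) := by
    rw [hs, Finset.sum_filter]
    refine Finset.sum_congr rfl fun i _ => ?_
    by_cases h : c i = 0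
    · simp [h]
    · rw [if_pos h]
  have hnorm : ∀ i : Fin f, ∀ z : ℤ, ‖c i‖ = ‖π‖ ^ ((f : ℤ) * z) →
      ‖c i * π ^ (i : ℕ)‖ = ‖π‖ ^ ((f : ℤ) * z + i) := by
    intro i z hz
    rw [norm_mul, norm_pow, hz, zpow_add₀ hpos.ne', zpow_natCast]
  have hpw : Set.Pairwise (s : Set (Fin f))
      (fun i j => ‖c i * π ^ (i : ℕ)‖ ≠ ‖c j * π ^ (j : ℕ)‖) := by
    intro i hi k hk hik he
    rw [Finset.mem_coe, hs, Finset.mem_filter] at hi hk
    obtain ⟨z, hz⟩ := hval i hi.2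
    obtain ⟨w, hw⟩ := hval k hk.2
    rw [hnorm i z hz, hnorm k w hw] at he
    have he2 := zpow_right_injective₀ hpos hπ1.ne he
    apply hik
    apply Fin.ext
    have h1 := i.2
    have h2 := k.2
    have h3 : (f : ℤ) * (z - w) = k - i := by linarith
    have h4 : z - w = 0 := by
      by_contra h4
      rcases lt_or_gt_of_ne h4 with h5 | h5
      · have : (f : ℤ) * (z - w) ≤ f * (-1) := mul_le_mul_of_nonneg_left (by omega) (by omega)
        omega
      · have : (f : ℤ) * 1 ≤ f * (z - w) := mul_le_mul_of_nonneg_left (by omega) (by omega)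
        omega
    rw [h4, mul_zero] at h3
    omega
  have hle : ‖c j * π ^ (j : ℕ)‖ ≤ 1 := by
    have h1 := IsUltrametricDist.norm_sum_eq_sup'_of_pairwise_ne ⟨j, hjs⟩ hpw
    rw [← hsum] at h1
    refine le_trans ?_ (h1 ▸ hx)
    exact Finset.le_sup' (fun i => ‖c i * π ^ (i : ℕ)‖) hjs
  obtain ⟨z, hz⟩ := hval j hj
  rw [hnorm j z hz, zpow_le_one_iff_right_of_lt_one₀ hpos hπ1] at hle
  rw [hz, zpow_le_one_iff_right_of_lt_one₀ hpos hπ1]
  have h2 := j.2
  by_contra hcon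
  push Not at hcon
  have hz1 : z ≤ -1 := by
    by_contra h
    push Not at h
    have : 0 ≤ (f : ℤ) * z := mul_nonneg (by omega) (by omega)
    omega
  have : (f : ℤ) * z ≤ f * (-1) := mul_le_mul_of_nonneg_left hz1 (by omega)
  omega

lemma unif_kur (hval : S_KURVAL) : Unif (kur p) (p : Om p) := by
  have hp : p.Prime := Fact.out
  have hp0 : (p : Om p) ≠ 0 := by exact_mod_cast hp.ne_zero
  refine ⟨_root_.natCast_mem _ p, hp0, ?_, fun x hx hx0 => ?_⟩
  · rw [norm_p]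
    exact inv_lt_one_of_one_lt₀ (by exact_mod_cast hp.one_lt)
  · obtain ⟨z, hz⟩ := hval p x hx hx0
    exact ⟨-z, by rw [hz, norm_p, inv_zpow', neg_neg]⟩

theorem FinOver.le {F L : LF p} (h : FinOver F L) : F ≤ L := by
  obtain ⟨s, hs⟩ := h
  rw [hs]
  exact le_sup_left

/-- **L4** -/
theorem main (hval : S_KURVAL) (hres : S_RES) : S_STRUCT := by
  intro p _ L hL
  have hKL := FinOver.le hL
  have hu := unif_kur (p := p) hval
  refine ⟨exists_unif hKL (finiteDim hKL hL) hu, ?_, ?_⟩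
  · intro π hπ x hx hx1
    have hfd := finiteDim hKL hL
    obtain ⟨f, hf0, hf⟩ := exists_exp hKL hu hπ
    have hsp := span_powers hres le_rfl hKL hu hπ f hf
    have hxm : (⟨x, hx⟩ : extendScalars hKL) ∈ Submodule.span (kur p)
        (Set.range fun j : Fin f => (⟨π, hπ.1⟩ : extendScalars hKL) ^ (j : ℕ)) := by
      rw [hsp]; exact Submodule.mem_top
    rw [Submodule.mem_span_range_iff_exists_fun] at hxm
    obtain ⟨c, hc⟩ := hxm
    have hsum : ∑ j : Fin f, (c j : Om p) * π ^ (j : ℕ) = x := by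
      have h1 := congrArg (fun y : extendScalars hKL => (y : Om p)) hc
      simp only at h1
      rw [← h1]
      push_cast
      rfl
    have hci := coord_le (kur p) hu hπ.2.1 hπ.2.2.1 f hf (fun j => (c j : Om p))
      (fun j => (c j).2) (by rw [hsum]; exact hx1)
    refine ⟨∑ j : Fin f, monomial (j : ℕ) (c j : Om p), fun i => ?_, ?_⟩
    · rw [finsetSum_coeff]
      by_cases hi : i < f
      · rw [Finset.sum_eq_single (⟨i, hi⟩ : Fin f)]
        · rw [coeff_monomial, if_pos rfl]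
          exact ⟨(c ⟨i, hi⟩).2, hci _⟩
        · intro j _ hj
          rw [coeff_monomial, if_neg]
          intro h
          exact hj (Fin.ext h)
        · intro h
          exact absurd (Finset.mem_univ _) h
      · rw [Finset.sum_eq_zero]
        · exact ⟨zero_mem _, by simp⟩
        · intro j _
          rw [coeff_monomial, if_neg]
          have := j.2
          omega
    · rw [eval_finsetSum, ← hsum]
      simp only [eval_monomial]
  · intro k hk hkL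
    refine ⟨FinOver.bot hk hkL hL, fun πk πL h1 h2 => ?_⟩
    exact ncard_eq hres hk hkL (FinOver.top hk hkL hL) h1 h2

end Pool.Agent.W571.RK.L4

namespace Pool.Agent.W571.RK

theorem l4 : Pool.Agent.W237.RK.S_KURVAL → Pool.Agent.W237.RK.S_RES →
    Pool.Agent.W237.RK.S_STRUCT := L4.main

end Pool.Agent.W571.RK
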